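import Mathlib
import Pool.Agent.P.MP_5fda20_pr.Fin

set_option autoImplicit false

namespace Pool.Agent.Results.MP_5fda20_pr.MstExponent

open Pool.Agent.P.MP_5fda20_pr Real Filter

/-- The probability that the random minimum spanning tree of the complete graph on n vertices is
2-splittable is n^(-2/3) up to a factor (log n)^19. -/
theorem result : ∀ᶠ n : ℕ in Filter.atTop,
    |Real.log (pMST (⊤ : SimpleGraph (Fin n))) + 2 / 3 * Real.log n| ≤
      19 * Real.log (Real.log n) := by
  obtain ⟨c, c0, h⟩ := main
  have t := tendsto_log_atTop.comp (tendsto_natCast_atTop_atTop (R := ℝ))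
  filter_upwards [h, (tendsto_log_atTop.comp t).eventually_ge_atTop (-log c / 19),
    t.eventually_gt_atTop 0, eventually_gt_atTop 0] with n h1 h2 h3 h4
  have n0 : (0 : ℝ) < n := Nat.cast_pos.2 h4
  have y0 := rpow_pos_of_pos n0 (-2 / 3)
  simp only [Function.comp] at h2 h3
  have h5 := log_le_log (mul_pos c0 y0) h1.1
  have h6 := log_le_log ((mul_pos c0 y0).trans_le h1.1) h1.2
  rw [log_mul c0.ne' y0.ne', log_rpow n0] at h5
  rw [log_mul y0.ne' (pow_pos h3 _).ne', log_rpow n0, log_pow] at h6
  push_cast at h6
  rw [abs_le]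
  constructor <;> linarith

end Pool.Agent.Results.MP_5fda20_pr.MstExponent
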