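import Mathlib
import Pool.Agent.P.MP_5fda20_pr.Fin

set_option autoImplicit false

namespace Pool.Agent.Results.MP_5fda20_pr.MstLower

open Pool.Agent.P.MP_5fda20_pr

/-- The probability that the random minimum spanning tree of the complete graph on n vertices is
2-splittable is at least c n^(-2/3). -/
theorem result : ∃ c : ℝ, 0 < c ∧ ∀ᶠ n : ℕ in Filter.atTop,
    c * (n : ℝ) ^ (-2 / 3 : ℝ) ≤ pMST (⊤ : SimpleGraph (Fin n)) := by
  obtain ⟨c, c0, h⟩ := main
  exact ⟨c, c0, h.mono fun _ h => h.1⟩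

end Pool.Agent.Results.MP_5fda20_pr.MstLower
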